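import Pool.Agent.U204.PN.Stm

/-! # Project PN, package AVG: averaging over one coordinate -/

set_option autoImplicit false

open MeasureTheory Filter Topology Finset

namespace Pool.Agent.U461.PN

open Pool.Agent.U204.PN

theorem update_meas (n : ℕ) :
    Measurable fun p : (ℕ → Bool) × Bool => Function.update p.1 n p.2 := by
  refine measurable_pi_iff.2 fun i => ?_
  by_cases h : i = n
  · subst h
    simp only [Function.update_self]
    exact measurable_snd
  · simp only [Function.update_of_ne h]
    exact (measurable_pi_apply i).comp measurable_fst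

theorem update_mp (μ : ℕ → Measure Bool) [∀ n, IsProbabilityMeasure (μ n)] (n : ℕ) :
    MeasurePreserving (fun p : (ℕ → Bool) × Bool => Function.update p.1 n p.2)
      ((Measure.infinitePi μ).prod (μ n)) (Measure.infinitePi μ) := by
  classical
  refine ⟨update_meas n, ?_⟩
  refine Measure.eq_infinitePi μ fun s t ht => ?_
  rw [Measure.map_apply (update_meas n)
    (MeasurableSet.pi s.countable_toSet fun i _ => ht i)]
  have hpre : (fun p : (ℕ → Bool) × Bool => Function.update p.1 n p.2) ⁻¹'
      (Set.pi (↑s) t) = (Set.pi (↑(s.erase n)) t) ×ˢ (if n ∈ s then t n else Set.univ) := by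
    ext ⟨w, b⟩
    simp only [Set.mem_preimage, Set.mem_pi, Set.mem_prod, Finset.mem_coe, Finset.mem_erase]
    constructor
    · intro h
      refine ⟨fun i hi => ?_, ?_⟩
      · have := h i hi.2
        rwa [Function.update_of_ne hi.1] at this
      · by_cases hn : n ∈ s
        · rw [if_pos hn]
          have := h n hn
          rwa [Function.update_self] at this
        · rw [if_neg hn]
          exact Set.mem_univ _
    · rintro ⟨h1, h2⟩ i hi
      by_cases hin : i = n
      · subst hin
        rw [if_pos hi] at h2
        rwa [Function.update_self]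
      · rw [Function.update_of_ne hin]
        exact h1 i ⟨hin, hi⟩
  rw [hpre, Measure.prod_prod, Measure.infinitePi_pi μ fun i _ => ht i]
  by_cases hn : n ∈ s
  · rw [if_pos hn, Finset.prod_erase_mul s _ hn]
  · rw [if_neg hn, measure_univ, mul_one, Finset.erase_eq_of_notMem hn]

section gen

variable {E : Type} [NormedAddCommGroup E] [NormedSpace ℝ E] [MeasurableSpace E] [BorelSpace E]
  [SecondCountableTopology E]

omit [NormedSpace ℝ E] [BorelSpace E] [SecondCountableTopology E] in
theorem Loc.meas {f : (ℕ → Bool) → E} (hf : Loc f) : Measurable f := by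
  obtain ⟨L, hL⟩ := hf
  have h : f = (fun v : Fin L → Bool => f fun i => if h : i < L then v ⟨i, h⟩ else false) ∘
      fun (w : ℕ → Bool) (i : Fin L) => w i := by
    funext w
    refine hL _ _ fun i hi => ?_
    simp only [dif_pos hi]
  rw [h]
  exact (measurable_of_countable _).comp
    (measurable_pi_iff.2 fun i => measurable_pi_apply (i : ℕ))

omit [NormedSpace ℝ E] [MeasurableSpace E] [BorelSpace E] [SecondCountableTopology E] in
theorem Loc.bdd {f : (ℕ → Bool) → E} (hf : Loc f) : ∃ C : ℝ, ∀ w, ‖f w‖ ≤ C := by
  obtain ⟨L, hL⟩ := hf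
  refine ⟨∑ v : Fin L → Bool, ‖f fun i => if h : i < L then v ⟨i, h⟩ else false‖, fun w => ?_⟩
  have h : f w = f fun i => if h : i < L then (fun i : Fin L => w i) ⟨i, h⟩ else false := by
    refine hL _ _ fun i hi => ?_
    simp only [dif_pos hi]
  rw [h]
  exact Finset.single_le_sum
    (f := fun v : Fin L → Bool => ‖f fun i => if h : i < L then v ⟨i, h⟩ else false‖)
    (fun v _ => norm_nonneg _) (Finset.mem_univ fun i : Fin L => w i)

omit [NormedSpace ℝ E] in
theorem Loc.integrable {f : (ℕ → Bool) → E} (hf : Loc f) (P : Measure (ℕ → Bool))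
    [IsFiniteMeasure P] : Integrable f P := by
  obtain ⟨C, hC⟩ := Loc.bdd hf
  exact Integrable.of_bound (Loc.meas hf).aestronglyMeasurable C (Filter.Eventually.of_forall hC)

theorem Loc.avg [CompleteSpace E] {f : (ℕ → Bool) → E} (hf : Loc f) (μ : ℕ → Measure Bool)
    [∀ n, IsProbabilityMeasure (μ n)] (n : ℕ) :
    ∫ ω, f ω ∂(Measure.infinitePi μ) =
      ∫ ω, ((1 - (μ n).real {true}) • f (Function.update ω n false) +
        (μ n).real {true} • f (Function.update ω n true)) ∂(Measure.infinitePi μ) := by
  have hmp := update_mp μ n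
  have h1 : ∫ ω, f ω ∂(Measure.infinitePi μ) =
      ∫ p, f (Function.update p.1 n p.2) ∂((Measure.infinitePi μ).prod (μ n)) := by
    conv_lhs => rw [← hmp.map_eq]
    exact integral_map hmp.measurable.aemeasurable (Loc.meas hf).aestronglyMeasurable
  have hint : Integrable (fun p : (ℕ → Bool) × Bool => f (Function.update p.1 n p.2))
      ((Measure.infinitePi μ).prod (μ n)) :=
    hmp.integrable_comp_of_integrable (Loc.integrable hf _)
  rw [h1, integral_prod _ hint]
  refine integral_congr_ae (Filter.Eventually.of_forall fun ω => ?_)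
  have hfin : Integrable (fun b : Bool => f (Function.update ω n b)) (μ n) :=
    Integrable.of_finite
  show ∫ b, f (Function.update ω n b) ∂(μ n) = _
  rw [integral_fintype hfin, Fintype.sum_bool, add_comm]
  have hfalse : (μ n).real {false} = 1 - (μ n).real {true} := by
    have h2 : ({true} : Set Bool)ᶜ = {false} := by
      ext b
      cases b <;> simp
    rw [← h2]
    exact probReal_compl_eq_one_sub (measurableSet_singleton true)
  rw [hfalse]

end gen

theorem t_AVG : S_AVG := by
  intro μ _ n
  refine ⟨fun f hf => ⟨Loc.integrable hf _, ?_⟩, fun f hf => ⟨Loc.meas hf, Loc.integrable hf _, ?_⟩⟩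
  · have h := Loc.avg hf μ n
    simpa only [smul_eq_mul] using h
  · have h := Loc.avg hf μ n
    rw [h]
    refine integral_congr_ae (Filter.Eventually.of_forall fun ω => ?_)
    simp only [Complex.real_smul]
    push_cast
    ring

end Pool.Agent.U461.PN
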